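import Pool.Agent.helper18.HG.Spec

set_option autoImplicit false

namespace Pool.Agent.helper18.HG

open Finset

theorem FIN (hCFS : CFS_stmt) (hDEL : DEL_stmt) (hTRC : TRC_stmt) (hFIX : FIX_stmt) (hTAY : TAY_stmt)
    (hGRW : GRW_stmt) : FIN_stmt := by
  intro d C
  obtain ⟨k₀, hk₀⟩ := hGRW C (((d : ℝ) + 1) ^ 2 * 2 ^ d) (by positivity)
  have key : ∀ k : ℕ, ∃ s₀ : ℕ, 3 ≤ k → ∀ s : ℕ, s₀ ≤ s → ∀ v : ℂ,
      EV (PowerSeries.mk (cf k)) (((s : ℝ)⁻¹ : ℝ) : ℂ) v → ∀ P : Polynomial ℤ, P ≠ 0 → P.natDegree ≤ d →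
      (∀ i, |(P.coeff i : ℝ)| ≤ (k : ℝ) ^ C * (s : ℝ) ^ C) → Polynomial.aeval v P ≠ 0 := by
    intro k
    by_cases hk : 3 ≤ k
    · have h1 : (1 : ℝ) ≤ (k : ℝ) ^ C := by
        apply one_le_pow₀
        exact_mod_cast (by omega : 1 ≤ k)
      obtain ⟨s₀, hs₀⟩ := hFIX (cf k) 1 (hCFS k 2 hk le_rfl).1 (hTRC k hk) d C ((k : ℝ) ^ C) h1
      exact ⟨s₀, fun _ => hs₀⟩
    · exact ⟨0, fun h => absurd h hk⟩
  choose f hf using key
  refine Set.Finite.subset (Finset.finite_toSet (range k₀ ×ˢ range ((range k₀).sup f))) ?_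
  rintro ⟨k, s⟩ ⟨hk, hs, P, hP0, hPd, hPc, hPv⟩
  simp only at hk hs hPc hPv
  have hc : ∀ i, |(P.coeff i : ℝ)| ≤ ((k : ℝ) * s) ^ C := by
    intro i
    have h := hPc i
    have h2 : ((|P.coeff i| : ℤ) : ℝ) ≤ (((((k * s) ^ C : ℕ) : ℤ)) : ℝ) := by exact_mod_cast h
    rw [Int.cast_abs] at h2
    refine h2.trans (le_of_eq ?_)
    push_cast
    ring
  have hklt : k < k₀ := by
    by_contra hcon
    push Not at hcon
    have hg := hk₀ k hcon s hs
    obtain ⟨hd0, hd1⟩ := hDEL k s hk hs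
    have hspos : (1 : ℝ) ≤ (s : ℝ) ^ (k - 1) := by
      apply one_le_pow₀
      exact_mod_cast (by omega : 1 ≤ s)
    have hδ1 : 1 - dens k s ≤ 1 := by nlinarith
    have hT := hTAY P d (((k : ℝ) * s) ^ C) (1 - dens k s) hP0 hPd hc hd0 hδ1 (by nlinarith)
    apply hT
    rw [sub_sub_cancel]
    exact hPv
  have hslt : s < (range k₀).sup f := by
    by_contra hcon
    push Not at hcon
    have hfk : f k ≤ (range k₀).sup f := Finset.le_sup (f := f) (by simpa using hklt)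
    have hEV := (hCFS k s hk hs).2
    have := hf k hk s (hfk.trans hcon) _ hEV P hP0 hPd (by
      intro i
      rw [← mul_pow]
      exact hc i)
    apply this
    have e : Polynomial.aeval ((dens k s : ℝ) : ℂ) P = ((Polynomial.aeval (dens k s) P : ℝ) : ℂ) :=
      Polynomial.aeval_algebraMap_apply ℂ (dens k s) P
    rw [e, hPv]
    simp
  simp only [Finset.coe_product, Finset.coe_range, Set.mem_prod, Set.mem_Iio]
  exact ⟨hklt, hslt⟩

end Pool.Agent.helper18.HG
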